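import Mathlib
import Pool.Agent.Lib.lead.GrpFO

set_option autoImplicit false

namespace Pool.Agent.Results.MP_32acdc_lc.Undecidable

open LeadGrpFO LeadLam

/-- The elementary theory of the class of groups acting freely on `Λ`-trees is undecidable. -/
theorem result : Function.Injective Fm.code ∧
    ¬ ∃ g : ℕ → Bool, Computable g ∧ ∀ φ : Fm, (∀ n, ¬ φ.Free n) →
      (g φ.code = true ↔ ∀ (G : Type) [Group G], TreeFree G → ∀ ρ : ℕ → G, φ.Sat ρ) :=
  ⟨Fm.code_inj, undec TreeFree exists_grp⟩

end Pool.Agent.Results.MP_32acdc_lc.Undecidable
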